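import Pool.Agent.Q211.ZP.Mw

/-!
# A model of ZFA in which ISFBI holds and IDFBI fails

The model is a permutation model (the classes `U` of the sets with atoms and `PM` of the
hereditarily symmetric ones are constructed in `Q211/ZP/U` and `Q211/ZP/N`, and it is proved in
`Q211/ZP/M` that permutation models are models of ZFA). The atoms are the finite sequences of
natural numbers. For a node `t` let `B t` be the set of the atoms that extend `t`. The group is
generated by the transpositions of the atoms and by the swaps of two subtrees `B (t p)`, `B (t q)`
above the same node `t`. A support is a finite subtree `S`; the subgroup `Gs S` is generated by the
swaps of `B (t p)`, `B (t q)` with `t` not in `S` and by the transpositions of atoms `a`, `b` outside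
`S` that extend the same elements of `S`. Its elements fix the elements of `S`, and they preserve
`B (u k)` up to finitely many atoms for all `u` in `S` and all `k`.

The set of the atoms is not dyadically filterbase infinite: Let `S` be a support of a dyadic system.
If a set `Y` of atoms in the model is fixed by `Gs S` modulo finite sets then it contains almost all
or almost no elements of `B v` for every minimal `v` outside `S`, and for `u` in `S` it contains
almost all of the sets `B (u k)`, or it is disjoint from almost all of them. So if there are more
classes in a level than elements of `S`, then one of them contains only finitely many of the sets
`B v`, and it cannot be split again and again.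

Let `x` be an infinite set of the model with support `S`. If a transposition in `Gs S` moves some
element `z` of `x` then, as in the basic Fraenkel model, `x` contains a copy of a cofinite subset of
`B (q k)` for almost all `k`, where `q` is a node of a support of `z`; their classes modulo finite
sets are fixed by the group of that support, so that `x` is strongly filterbase infinite. The same
holds if `x` has infinitely many orbits under `Gs T` for some support `T` that contains `S`.
Otherwise for every `T` the set `F T` of the elements of `x` with finite orbit under `Gs T` is finite.
If `T'` is `T` together with a minimal node outside `T` then the image of `Gs T'` in the group of the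
permutations of `x` is normal in the image of `Gs T`, so `F T'` is invariant under `Gs T`, and
therefore `F T'` is contained in `F T`. Since every element of `x` is in `F T` for some `T`, it is in
`F S`, a contradiction.
-/

set_option autoImplicit false

namespace Pool.Agent.Results.MP_fb2f7f_lc.StronglyNotDyadically

open Pool.Agent.Helper672.ZFA Pool.Agent.Q211.ZP

/-- There is a model of ZFA (with standard natural numbers) in which every infinite set is
strongly filterbase infinite, and some infinite set is not dyadically filterbase infinite. -/
theorem result : ∃ (M : Type 1) (_ : L.Structure M) (_ : ZFA M), StdOmega M ∧
    (∀ x : M, IsSet x → ¬ FinIn x → StronglyFB x) ∧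
    ∃ x : M, IsSet x ∧ ¬ FinIn x ∧ ¬ DyadicallyFB x := by
  obtain ⟨x, h1, h2, h3⟩ := exists_atomset
  exact ⟨Pt, inferInstance, inferInstance, stdOmega, fun x _ hx => sfb_all x hx,
    x, h1, h2, not_dfb h3⟩

end Pool.Agent.Results.MP_fb2f7f_lc.StronglyNotDyadically
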